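import Mathlib
import Pool.Agent.R343.LT7

set_option autoImplicit false

/-!
# Quadratic points with compressible coordinates on the Fermat curves

A word of letters is cut into `z` phrases (`LZ a N z`, Lempel and Ziv) if each phrase is a single
letter, or a (possibly empty) copy of a block that begins further to the left; the block may
overlap the phrase. For instance the word `u v ^ m w` has a number of phrases which does not depend
on `m`.

Let `n ≥ 8`. We consider all solutions of `x ^ n + y ^ n = z ^ n` in all quadratic fields `K`, with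
`x, z ≠ 0` and `y / z` irrational, and all integers `w_0 ≠ 0, w_1, w_2, w_3` such that
`w_1 / w_0 = Tr(y / z)`, `w_2 / w_0 = N(y / z)`, `w_3 / w_0 = N(x / z)`. Let `h` be the maximum of the
numerators and denominators of these three rational numbers.

1. If the `w_i` are the values in some base `b ≥ 2` of the components of a word over `ℤ ^ 4` with `ζ`
   phrases and with entries of absolute value at most `B`, first letter highest or lowest, then
   `h ≤ bound n (6 ^ ζ) B`, an explicit number that depends neither on `b` and `K` nor on the length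
   of the word.

2. For every `b ≥ 2` and every `ζ` there is `C` such that `h ≤ C` if the `w_i` are coprime and the
   digits in base `b` of every `w_i ≠ 0` (from the first to the last one) form a word with `ζ`
   phrases; the phrases of the four words are independent of each other. So there are finitely
   many triples `(Tr(y / z), N(y / z), N(x / z))` of this kind.

3. The same for separate words of integral letters of absolute value at most `B` of length `N`,
   `N log b ≤ M (1 + log h)`.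
-/

namespace Pool.Agent.Results.MP_50a406_nt.LempelZivQuadratic

open Finset Pool.Agent.R343.LP Pool.Agent.R343.LT
open Pool.Agent.Results.MP_50a406_nt.SparseQuadratic (ht bound)

theorem lz_zero {b z : ℕ} {B : ℤ} (hB : 0 ≤ B) {Λ : ℝ} (h0 : 0 ≤ Λ) (h : Real.log b ≤ Λ) :
    LZInt b z B Λ 0 := by
  rcases Nat.eq_zero_or_pos z with hz | hz
  · subst hz
    exact ⟨fun _ => 0, 0, ⟨fun _ => 0, rfl, rfl, fun i hi => absurd hi (Nat.not_lt_zero _)⟩,
      fun j hj => absurd hj (Nat.not_lt_zero _), by simpa using h0, by simp⟩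
  · refine ⟨fun _ => 0, 1, ⟨fun i => min i 1, rfl, by
      show min z 1 = 1
      omega, fun i _ => ?_⟩, fun j _ => by simpa using hB, by simpa using h, by simp⟩
    rcases Nat.eq_zero_or_pos i with hi | hi
    · left
      subst hi
      rfl
    · right
      refine ⟨?_, 1, one_pos, ?_, fun j h1 h2 => rfl⟩
      · show min i 1 ≤ min (i + 1) 1
        omega
      · show 1 ≤ min i 1
        omega

theorem coprime_size (w : Fin 4 → ℤ) (h0 : w 0 ≠ 0) (hc : ∃ c : Fin 4 → ℤ, ∑ i, c i * w i = 1)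
    (i : Fin 4) : (w i).natAbs ≤ hgt w ^ 4 := by
  obtain ⟨c, hc⟩ := hc
  have h0Q : (w 0 : ℚ) ≠ 0 := by exact_mod_cast h0
  have hmul : ∀ i, (w i : ℤ) * (((w i : ℚ) / w 0).den : ℤ) = ((w i : ℚ) / w 0).num * w 0 := by
    intro i
    have h1 : ((w i : ℚ) / w 0) * ((w i : ℚ) / w 0).den = ((w i : ℚ) / w 0).num := Rat.mul_den_eq_num _
    have h2 : (w i : ℚ) * (((w i : ℚ) / w 0).den : ℕ) = (((w i : ℚ) / w 0).num : ℤ) * w 0 := by
      rw [← h1]
      field_simp
    exact_mod_cast h2
  have hle : ∀ i, i ≠ 0 → ht ((w i : ℚ) / w 0) ≤ hgt w := by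
    intro i hi
    unfold hgt
    fin_cases i
    · exact absurd rfl hi
    · exact le_max_left _ _
    · exact (le_max_left _ _).trans (le_max_right _ _)
    · exact (le_max_right _ _).trans (le_max_right _ _)
  have hden : ∀ i, i ≠ 0 → ((w i : ℚ) / w 0).den ≤ hgt w := fun i hi =>
    (le_max_right _ _).trans (hle i hi)
  have hnum : ∀ i, i ≠ 0 → ((w i : ℚ) / w 0).num.natAbs ≤ hgt w := fun i hi =>
    (le_max_left _ _).trans (hle i hi)
  obtain ⟨d, hd⟩ : ∃ d : Fin 4 → ℕ, d = fun i => ((w i : ℚ) / w 0).den := ⟨_, rfl⟩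
  obtain ⟨P, hP⟩ : ∃ P : ℕ, P = d 1 * d 2 * d 3 := ⟨_, rfl⟩
  have hd1 : ∀ i, 1 ≤ d i := fun i => by
    rw [hd]
    exact Nat.one_le_iff_ne_zero.2 (Rat.den_nz _)
  have hdvd : ∀ i, w 0 ∣ (P : ℤ) * w i := by
    intro i
    have h1 : ∀ i, w 0 ∣ (d i : ℤ) * w i := fun i => by
      refine ⟨((w i : ℚ) / w 0).num, ?_⟩
      have := hmul i
      rw [hd]
      linarith
    fin_cases i
    · exact Dvd.intro_left _ rfl
    · show w 0 ∣ (P : ℤ) * w 1
      have e : (P : ℤ) * w 1 = (d 2 * d 3) * ((d 1 : ℤ) * w 1) := by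
        rw [hP]
        push_cast
        ring
      rw [e]
      exact Dvd.dvd.mul_left (h1 1) _
    · show w 0 ∣ (P : ℤ) * w 2
      have e : (P : ℤ) * w 2 = (d 1 * d 3) * ((d 2 : ℤ) * w 2) := by
        rw [hP]
        push_cast
        ring
      rw [e]
      exact Dvd.dvd.mul_left (h1 2) _
    · show w 0 ∣ (P : ℤ) * w 3
      have e : (P : ℤ) * w 3 = (d 1 * d 2) * ((d 3 : ℤ) * w 3) := by
        rw [hP]
        push_cast
        ring
      rw [e]
      exact Dvd.dvd.mul_left (h1 3) _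
  have hdP : w 0 ∣ (P : ℤ) := by
    have e : (P : ℤ) = ∑ i, c i * ((P : ℤ) * w i) := by
      calc (P : ℤ) = P * ∑ i, c i * w i := by rw [hc, mul_one]
        _ = _ := by
          rw [Finset.mul_sum]
          exact Finset.sum_congr rfl fun i _ => by ring
    rw [e]
    exact Finset.dvd_sum fun i _ => Dvd.dvd.mul_left (hdvd i) _
  have hP0 : 0 < P := by
    rw [hP]
    exact Nat.mul_pos (Nat.mul_pos (hd1 1) (hd1 2)) (hd1 3)
  have hw0 : (w 0).natAbs ≤ hgt w ^ 3 := by
    have h1 : (w 0).natAbs ∣ P := by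
      have := Int.natAbs_dvd_natAbs.2 hdP
      simpa using this
    refine (Nat.le_of_dvd hP0 h1).trans ?_
    rw [hP, hd]
    calc ((w 1 : ℚ) / w 0).den * ((w 2 : ℚ) / w 0).den * ((w 3 : ℚ) / w 0).den ≤
          hgt w * hgt w * hgt w := Nat.mul_le_mul (Nat.mul_le_mul (hden 1 (by decide))
            (hden 2 (by decide))) (hden 3 (by decide))
      _ = hgt w ^ 3 := by ring
  have hh1 : 1 ≤ hgt w := by
    have := hden 1 (by decide)
    have h2 := hd1 1
    rw [hd] at h2
    exact h2.trans this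
  by_cases hi : i = 0
  · subst hi
    exact hw0.trans (Nat.pow_le_pow_right hh1 (by norm_num))
  · have h1 := congrArg Int.natAbs (hmul i)
    rw [Int.natAbs_mul, Int.natAbs_mul] at h1
    have h2 : (w i).natAbs ≤ (w i).natAbs * (((w i : ℚ) / w 0).den : ℤ).natAbs :=
      Nat.le_mul_of_pos_right _ (by
        rw [Int.natAbs_natCast]
        exact Rat.den_pos _)
    calc (w i).natAbs ≤ (w i).natAbs * (((w i : ℚ) / w 0).den : ℤ).natAbs := h2
      _ = ((w i : ℚ) / w 0).num.natAbs * (w 0).natAbs := h1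
      _ ≤ hgt w * hgt w ^ 3 := Nat.mul_le_mul (hnum i hi) hw0
      _ = hgt w ^ 4 := by ring

theorem digits (n : ℕ) (hn : 8 ≤ n) (b z : ℕ) (hb : 2 ≤ b) :
    ∃ C : ℝ, ∀ w : Fin 4 → ℤ, IsPoint n w → (∃ c : Fin 4 → ℤ, ∑ i, c i * w i = 1) →
      (∀ i, w i = 0 ∨ LZDown b z (w i)) → (hgt w : ℝ) ≤ C := by
  have hlb : 0 ≤ Real.log b := Real.log_nonneg (by
    have : 1 ≤ b := by omega
    exact_mod_cast this)
  obtain ⟨C, hC⟩ := separate n hn b hb z b (Int.natCast_nonneg _) (Real.log b + 4) (by positivity)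
  refine ⟨C, fun w hw hc h => hC w hw fun i => ?_⟩
  have hlh : 0 ≤ Real.log (hgt w) := Real.log_natCast_nonneg _
  rcases h i with h | h
  · rw [h]
    refine lz_zero (Int.natCast_nonneg _) (by positivity) ?_
    nlinarith [mul_nonneg hlb hlh]
  · refine h.toInt hb ?_
    have h1 := places_le hb (w i)
    have h2 := coprime_size w hw.1 hc i
    have hh1 : 1 ≤ hgt w := by
      by_contra hcon
      have e : hgt w = 0 := by omega
      have h3 := coprime_size w hw.1 hc 0
      rw [e] at h3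
      have h4 : (w 0).natAbs = 0 := by omega
      exact hw.1 (Int.natAbs_eq_zero.1 h4)
    have h3 : max 1 |(w i : ℝ)| ≤ (hgt w : ℝ) ^ 4 := by
      refine max_le (one_le_pow₀ (by exact_mod_cast hh1)) ?_
      have h4 : (((w i).natAbs : ℕ) : ℝ) ≤ ((hgt w ^ 4 : ℕ) : ℝ) := by exact_mod_cast h2
      push_cast at h4
      rwa [Nat.cast_natAbs, Int.cast_abs] at h4
    have h4 := Real.log_le_log (by positivity) h3
    rw [Real.log_pow] at h4
    push_cast at h4
    nlinarith [mul_nonneg hlb hlh]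

/-- The result: (1) joint words, (2) digits of coprime coordinates, (3) separate words. -/
theorem result (n : ℕ) (hn : 8 ≤ n) :
    (∀ b : ℕ, 2 ≤ b → ∀ (z N B : ℕ) (a : ℕ → Fin 4 → ℤ), LZ a N z →
      (∀ j < N, ∀ i, |a j i| ≤ B) → ∀ w : Fin 4 → ℤ, IsPoint n w →
      ((∀ i, w i = ∑ j ∈ range N, (b : ℤ) ^ (N - 1 - j) * a j i) ∨
        ∀ i, w i = ∑ j ∈ range N, (b : ℤ) ^ j * a j i) → hgt w ≤ bound n (6 ^ z) B) ∧
    (∀ b z : ℕ, 2 ≤ b → ∃ C : ℝ, ∀ w : Fin 4 → ℤ, IsPoint n w →
      (∃ c : Fin 4 → ℤ, ∑ i, c i * w i = 1) → (∀ i, w i = 0 ∨ LZDown b z (w i)) →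
      (hgt w : ℝ) ≤ C) ∧
    (∀ b z : ℕ, 2 ≤ b → ∀ B : ℤ, 0 ≤ B → ∀ M : ℝ, 0 ≤ M → ∃ C : ℝ, ∀ w : Fin 4 → ℤ, IsPoint n w →
      (∀ i, LZInt b z B (M * (1 + Real.log (hgt w))) (w i)) → (hgt w : ℝ) ≤ C) :=
  ⟨fun b hb z N B a hLZ ha w hw h => joint n hn b hb z N B a hLZ ha w hw h,
    fun b z hb => digits n hn b z hb,
    fun b z hb B hB M hM => separate n hn b hb z B hB M hM⟩

end Pool.Agent.Results.MP_50a406_nt.LempelZivQuadratic
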