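import Pool.Agent.R503.FN.Fin

/-!
# Prime divisors of solutions of Fermat's equation over quadratic fields

Let `K` be a quadratic field, `p ≥ 5` a prime dividing `n` and `x ^ n + y ^ n = z ^ n` a nontrivial
solution in `K`. If `K` is real, each of `x, y, z` (common divisors removed) is divisible by a prime
ideal of norm `1` modulo `p`. If `K` is imaginary, this holds for at least two of `x, y, z`, and if it
fails for `z`, the numbers `(x / z) ^ (n / p)` and `(y / z) ^ (n / p)` are conjugate.

Proof. Let `α ^ p + β ^ p = 1` and let `b` be the denominator of `α` (and of `β`), `D` its norm. At a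
prime `P` dividing `b` with `N P` not `1` modulo `p` the number `- α / β` is `1` modulo `P`, as its
`p`-th power is, so `(α ^ p + β ^ p) / (α + β)` has the largest possible absolute value there up to
that of `p`. Hence the norm of `α + β` is at least `D ^ (p - 1)`, or `D ^ (p - 1) / p ^ 2` and then
`p ≤ D`. In a real field `|α + β| ≤ 2` in both embeddings, a contradiction. In an imaginary field this
gives `|α| ≥ c D ^ ((p - 1) / 2)`; but `D |α| ^ 2` and `D |β| ^ 2` are integers and
`| |α| ^ p - |β| ^ p | ≤ 1`, so `|α| = |β|`, and `β` is the conjugate of `α`. This for two of the three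
variables gives `w² = w̄` for `w = α ^ (n / p)` and its analogues, and the solution is trivial.
-/

set_option autoImplicit false

namespace Pool.Agent.Results.MP_50a406_nt.PrimeDivisors

open NumberField

/-- `w` (one of `x, y, z`) is divisible, after removal of the common divisors of `x, y, z`, by a prime
ideal of norm `1` modulo `p`: there is a finite place `v` with `|w| < max (|x|, |y|, |z|)` whose prime
ideal has such a norm. -/
def SplitDivisor {K : Type} [Field K] [NumberField K] (p : ℕ) (x y z w : K) : Prop :=
  ∃ v : FinitePlace K, v w < max (max (v x) (v y)) (v z) ∧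
    Ideal.absNorm v.maximalIdeal.asIdeal ≡ 1 [MOD p]

theorem result (K : Type) [Field K] [NumberField K] (hK : Module.finrank ℚ K = 2)
    (p n : ℕ) (hp : p.Prime) (h5 : 5 ≤ p) (hn : p ∣ n)
    (x y z : K) (hx : x ≠ 0) (hy : y ≠ 0) (hz : z ≠ 0) (h : x ^ n + y ^ n = z ^ n)
    (hnt : ¬ ∃ m : ℕ, 0 < m ∧ (x / z) ^ m = 1 ∧ (y / z) ^ m = 1) :
    ((∀ w : InfinitePlace K, w.IsReal) →
      SplitDivisor p x y z x ∧ SplitDivisor p x y z y ∧ SplitDivisor p x y z z) ∧
    ((SplitDivisor p x y z x ∧ SplitDivisor p x y z y) ∨
      (SplitDivisor p x y z y ∧ SplitDivisor p x y z z) ∨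
      (SplitDivisor p x y z x ∧ SplitDivisor p x y z z)) ∧
    (¬ SplitDivisor p x y z z → (x / z) ^ (n / p) + (y / z) ^ (n / p) =
      algebraMap ℚ K (Algebra.trace ℚ K ((x / z) ^ (n / p)))) :=
  Pool.Agent.R503.FN.final hK p n hp h5 hn x y z hx hy hz h hnt

end Pool.Agent.Results.MP_50a406_nt.PrimeDivisors
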